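import Mathlib
import Pool.Agent.U108.NS.Fin

/-!
# The theory of the hyperfinite II_1 factor is not simple

There are a model `M` of the theory, a set `B ⊆ M` and a type over `B` which divides over every
separable subset of `B`.
-/

set_option autoImplicit false

namespace Pool.Agent.Results.MP_baa3fb_lc.HyperfiniteNotSimple

open Pool.Agent.H504R3.S Pool.Agent.U108.NS

/-- The continuous theory of the hyperfinite II_1 factor is not simple. -/
theorem result : ∀ R : Str, R.IsHyperfinite → ¬ IsSimple R := fun _ h => not_simple h

end Pool.Agent.Results.MP_baa3fb_lc.HyperfiniteNotSimple
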